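import Mathlib
import Pool.Agent.W604.T.Fin

set_option autoImplicit false

/-!
# Finite type of quotient arc complexes, with an explicit and uniform bound on the type

The definitions are in `Pool.Agent.W604.Def1`, `Pool.Agent.W604.Def2`, `Pool.Agent.W604.T.Def1` and
`Pool.Agent.W604.T.Def2`.  The largest arc families of the surface `F` of genus `g` with `r` boundary
components, `s` punctures and `δ i` distinguished points on the `i`-th boundary component have
`numArcs F = 6 g - 6 + 3 r + 2 s + ∑ δ i` arcs, so that `Arc F` has dimension `numArcs F - 1`.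
-/

namespace Pool.Agent.Results.MP_de6cd8_gt.ExplicitType

open Pool.Agent.W604.ArcSS Pool.Agent.W604.FT

/-- The number of arcs of the largest arc families of the surface `F`. -/
def numArcs (F : Surf) : ℤ := 6 * F.g - 6 + 3 * F.r + 2 * F.s + ∑ i, (F.δ i : ℤ)

theorem numArcs_eq (F : Surf) : numArcs F = NF F := by
  unfold numArcs NF XF
  rw [Nat.card_eq_fintype_card, Nat.card_eq_fintype_card, Fintype.card_sigma]
  simp only [Fintype.card_fin]
  push_cast
  ring

theorem tyLt_succ {One : Poly → Prop} {n : ℕ} {K : Poly} (h : TyLt One n K) :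
    TyLt One (n + 1) K := Or.inl h

/-- A space of type `n ≥ 2` has type `n + 1`. -/
theorem ty_succ {One : Poly → Prop} {n : ℕ} {K : Poly} (h : Ty One (n + 2) K) :
    Ty One (n + 3) K := by
  obtain ⟨hf, h⟩ := h
  refine ⟨hf, fun L hL v hv => ?_⟩
  rcases h L hL v hv with ⟨X, h1, h2, h3⟩ | ⟨X, Y, h1, h2, h3⟩
  · exact Or.inl ⟨X, tyLt_succ h1, h2, h3⟩
  · exact Or.inr ⟨X, Y, tyLt_succ h1, tyLt_succ h2, h3⟩

theorem ty_mono {One : Poly → Prop} {m n : ℕ} {K : Poly} (h : Ty One (m + 2) K)
    (hmn : m + 2 ≤ n) : Ty One n K := by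
  obtain ⟨k, rfl⟩ := Nat.exists_eq_add_of_le hmn
  induction k with
  | zero => exact h
  | succ k ih =>
    have h1 := ih (by omega)
    have e : m + 2 + k = (m + k) + 2 := by omega
    rw [e] at h1
    have h2 := ty_succ h1
    have e2 : m + 2 + (k + 1) = (m + k) + 3 := by omega
    rw [e2]
    exact h2

/-- Let `F` be a surface of genus `g` with `r ≥ 1` boundary components, `s` punctures and `δ i ≥ 1`
distinguished points on the `i`-th boundary component, and let
`N = numArcs F = 6 g - 6 + 3 r + 2 s + ∑ δ i`.  If `N ≤ 1`, then `Arc F` is a type `0` space. If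
`N ≥ 2`, then `Arc F` is a type `n` space for every `n ≥ N`, and so is every complex that is
piecewise linearly equivalent to `Arc F`, while all vertex links of these complexes are type `n`
spaces for every `n ≥ N - 1` (type `0` spaces if `N = 2`). This holds for every class `One` in the
place of the arc complexes of the four type 1 surfaces. -/
theorem result (One : Poly → Prop) (F : Surf) :
    (numArcs F ≤ 1 → Ty One 0 ⟨_, Arc F⟩) ∧
    (2 ≤ numArcs F → ∀ L : Poly, PL ⟨_, Arc F⟩ L →
      (∀ n : ℕ, numArcs F ≤ n → Ty One n L) ∧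
      ∀ v, {v} ∈ L.2.S → (numArcs F = 2 → Ty One 0 ⟨_, L.2.link v⟩) ∧
        (3 ≤ numArcs F → ∀ n : ℕ, numArcs F ≤ n + 1 → Ty One n ⟨_, L.2.link v⟩)) := by
  have hQ := Q_arc F
  have hN : (NN F : ℤ) = max (numArcs F) 0 := by
    unfold NN
    rw [numArcs_eq]
    exact Int.toNat_eq_max _
  refine ⟨fun h => ?_, fun h L hL => ?_⟩
  · have h1 : NN F = 0 ∨ NN F = 1 := by omega
    rcases h1 with h1 | h1
    · rw [h1] at hQ
      exact ty0_of_Q0 One hQ
    · rw [h1] at hQ
      exact ty0_of_Q1 One hQ
  · obtain ⟨m, hm⟩ : ∃ m, NN F = m + 2 := ⟨NN F - 2, by omega⟩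
    rw [hm] at hQ
    have hQL : Q (m + 2) L.2 := (Q.pl hL).1 hQ
    have hf : L.2.S.Finite := (fin_pl hL).1 (finite_arc F)
    refine ⟨fun n hn => ty_mono (ty_of_Q One m L hQL hf) (by omega), fun v hv => ⟨fun h2 => ?_,
      fun h3 n hn => ?_⟩⟩
    · have : m = 0 := by omega
      subst this
      exact ty0_of_Q1 One (hQL.link hv)
    · obtain ⟨k, hk⟩ : ∃ k, m = k + 1 := ⟨m - 1, by omega⟩
      subst hk
      exact ty_mono (ty_of_Q One k _ (hQL.link hv) (fin_link hf v)) (by omega)

end Pool.Agent.Results.MP_de6cd8_gt.ExplicitType
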